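import Pool.Agent.Helper15.FC.St1

/-! # Project FC: module PTS -/

set_option autoImplicit false

namespace Pool.Agent.Helper48.FC

open Pool.Agent.Helper15.FC Polynomial

private lemma finrankEq {F L : Type} [Field F] [Fintype F] [Field L] [Fintype L] [Algebra F L]
    {s : ℕ} (h : Fintype.card L = Fintype.card F ^ s) : Module.finrank F L = s := by
  have h1 := Module.card_eq_pow_finrank (K := F) (V := L)
  exact Nat.pow_right_injective (Nat.succ_le_of_lt Fintype.one_lt_card) (h1.symm.trans h)

private lemma cmPow {F : Type} [Field F] {Χ : F[X] → ℂ} (hX : CM Χ) {P : F[X]} (hP : P.Monic)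
    (n : ℕ) : Χ (P ^ n) = Χ P ^ n := by
  induction n with
  | zero => simp [hX.1]
  | succ n ih => rw [pow_succ, hX.2.1 _ _ (hP.pow n) hP, ih, pow_succ]

private lemma degDvd {F L : Type} [Field F] [Fintype F] [Field L] [Fintype L] [Algebra F L]
    {s : ℕ} (h : Fintype.card L = Fintype.card F ^ s) (a : L) :
    (minpoly F a).natDegree ∣ s := by
  have hfr := finrankEq h
  have hfin : FiniteDimensional F L := Module.Finite.of_finite
  have hint : IsIntegral F a := Algebra.IsIntegral.isIntegral a
  rw [← IntermediateField.adjoin.finrank hint, ← hfr]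
  exact ⟨_, (Module.finrank_mul_finrank F (IntermediateField.adjoin F {a}) L).symm⟩

private lemma cardFib {F L : Type} [Field F] [Fintype F] [Field L] [Fintype L] [Algebra F L]
    {s : ℕ} (h : Fintype.card L = Fintype.card F ^ s) {P : F[X]} (hm : P.Monic)
    (hi : Irreducible P) (hd : P.natDegree ∣ s) :
    Nat.card {a : L // minpoly F a = P} = P.natDegree := by
  have hfr := finrankEq h
  have : Fact (Irreducible P) := ⟨hi⟩
  have hK : Module.finrank F (AdjoinRoot P) = P.natDegree := by
    rw [PowerBasis.finrank (AdjoinRoot.powerBasis hi.ne_zero), AdjoinRoot.powerBasis_dim]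
  have h1 : Nat.card (AdjoinRoot P →ₐ[F] L) = Module.finrank F (AdjoinRoot P) :=
    FiniteField.natCard_algHom_of_finrank_dvd (by rw [hK, hfr]; exact hd)
  rw [hK] at h1
  rw [← h1]
  refine Nat.card_congr (Equiv.trans ?_ (AdjoinRoot.equiv L F P hi.ne_zero).symm)
  refine Equiv.subtypeEquivRight fun a => ?_
  rw [Polynomial.mem_aroots]
  constructor
  · intro ha
    exact ⟨hi.ne_zero, by rw [← ha]; exact minpoly.aeval F a⟩
  · rintro ⟨-, ha⟩
    exact (minpoly.eq_of_irreducible_of_monic hi ha hm).symm

theorem hPTS : StPTS := by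
  intro F L _ _ _ _ _ s Χ hs hcard hX
  classical
  have hfin : FiniteDimensional F L := Module.Finite.of_finite
  have hmon : ∀ a : L, (minpoly F a).Monic := fun a =>
    minpoly.monic (Algebra.IsIntegral.isIntegral a)
  have hirr : ∀ a : L, Irreducible (minpoly F a) := fun a =>
    minpoly.irreducible (Algebra.IsIntegral.isIntegral a)
  have hmem : ∀ (d : ℕ) (P : F[X]), P ∈ Ir F d ↔ (P.Monic ∧ P.natDegree = d) ∧ Irreducible P := by
    intro d P
    unfold Ir
    rw [Finset.mem_filter, mem_Mn]
  have h1 : ∀ a : L, Χ (fa s a) = Χ (minpoly F a) ^ (s / (minpoly F a).natDegree) := by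
    intro a
    unfold fa
    exact cmPow hX (hmon a) _
  rw [Finset.sum_congr rfl (fun a _ => h1 a)]
  rw [← Finset.sum_fiberwise_of_maps_to (s := (Finset.univ : Finset L)) (t := s.divisors)
    (g := fun a => (minpoly F a).natDegree)
    (fun a _ => Nat.mem_divisors.2 ⟨degDvd hcard a, by omega⟩)]
  unfold Psi
  refine Finset.sum_congr rfl fun d hd => ?_
  have hds : d ∣ s := (Nat.mem_divisors.1 hd).1
  rw [← Finset.sum_fiberwise_of_maps_to
    (s := (Finset.univ : Finset L).filter (fun a => (minpoly F a).natDegree = d)) (t := Ir F d)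
    (g := fun a => minpoly F a)
    (fun a ha => (hmem d _).2 ⟨⟨hmon a, (Finset.mem_filter.1 ha).2⟩, hirr a⟩), Finset.mul_sum]
  refine Finset.sum_congr rfl fun P hP => ?_
  obtain ⟨⟨hPm, hPd⟩, hPi⟩ := (hmem d P).1 hP
  have h2 : ∀ a ∈ ((Finset.univ : Finset L).filter (fun a => (minpoly F a).natDegree = d)).filter
      (fun a => minpoly F a = P),
      Χ (minpoly F a) ^ (s / (minpoly F a).natDegree) = Χ P ^ (s / d) := by
    intro a ha
    have h3 := (Finset.mem_filter.1 ha).2
    rw [h3, hPd]
  rw [Finset.sum_congr rfl h2, Finset.sum_const, nsmul_eq_mul]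
  congr 1
  have h4 : ((Finset.univ : Finset L).filter (fun a => (minpoly F a).natDegree = d)).filter
      (fun a => minpoly F a = P) = (Finset.univ : Finset L).filter (fun a => minpoly F a = P) := by
    ext a
    simp only [Finset.mem_filter, Finset.mem_univ, true_and]
    constructor
    · rintro ⟨-, h⟩
      exact h
    · intro h
      exact ⟨by rw [h, hPd], h⟩
  rw [h4]
  have h5 := cardFib hcard hPm hPi (by rw [hPd]; exact hds)
  rw [Nat.card_eq_fintype_card, Fintype.card_subtype, hPd] at h5
  rw [h5]

end Pool.Agent.Helper48.FC
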