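import Pool.Agent.Helper15.FC.St2

/-! # Project FC: module TAU -/

set_option autoImplicit false

namespace Pool.Agent.Helper48.FC

open Pool.Agent.Helper15.FC Polynomial

private lemma memIr {F : Type} [Field F] [Fintype F] (d : ℕ) (P : F[X]) :
    P ∈ Ir F d ↔ (P.Monic ∧ P.natDegree = d) ∧ Irreducible P := by
  classical
  unfold Ir
  rw [Finset.mem_filter, mem_Mn]

/-- divisors of `P^a g` -/
private lemma tauMul {F : Type} [Field F] [Fintype F] {P g : F[X]} (hP : P.Monic)
    (hi : Irreducible P) (hg : g.Monic) (hnd : ¬ P ∣ g) (a : ℕ) :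
    (Dv (P ^ a * g)).card ≤ (a + 1) * (Dv g).card := by
  classical
  have hpr : Prime P := hi.prime
  have hsub : Dv (P ^ a * g) ⊆
      ((Finset.range (a + 1)) ×ˢ (Dv g)).image (fun z => P ^ z.1 * z.2) := by
    intro d hd
    rw [mem_Dv (mul_ne_zero (pow_ne_zero _ hP.ne_zero) hg.ne_zero)] at hd
    obtain ⟨hdm, hdd⟩ := hd
    have hfin : FiniteMultiplicity P d := FiniteMultiplicity.of_not_isUnit hi.not_isUnit hdm.ne_zero
    obtain ⟨d', hd', hnd'⟩ := hfin.exists_eq_pow_mul_and_not_dvd
    set b := multiplicity P d with hb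
    have hd'm : d'.Monic := by
      refine Monic.of_mul_monic_left (hP.pow b) ?_
      rw [← hd']
      exact hdm
    have h1 : d' ∣ g := by
      have h2 : d' ∣ P ^ a * g := by
        refine dvd_trans ?_ hdd
        rw [hd']
        exact dvd_mul_left _ _
      have hc : IsCoprime d' (P ^ a) := by
        refine IsCoprime.pow_right ?_
        exact ((EuclideanDomain.dvd_or_coprime P d' hi).resolve_left hnd').symm
      exact hc.dvd_of_dvd_mul_left h2
    have h3 : b ≤ a := by
      by_contra hcon
      have h4 : P ^ (a + 1) ∣ P ^ a * g := by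
        refine dvd_trans (pow_dvd_pow P (by omega : a + 1 ≤ b)) (dvd_trans ?_ hdd)
        rw [hd']
        exact dvd_mul_right _ _
      rw [pow_succ] at h4
      exact hnd ((mul_dvd_mul_iff_left (pow_ne_zero a hP.ne_zero)).1 h4)
    rw [Finset.mem_image]
    refine ⟨(b, d'), ?_, hd'.symm⟩
    rw [Finset.mem_product]
    exact ⟨Finset.mem_range.2 (by simpa using Nat.lt_succ_of_le h3),
      (mem_Dv hg.ne_zero).2 ⟨hd'm, h1⟩⟩
  refine (Finset.card_le_card hsub).trans (Finset.card_image_le.trans ?_)
  rw [Finset.card_product, Finset.card_range]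

theorem hTAU : StTAU := by
  intro F _ _ ε hε
  classical
  have hq2 : (2 : ℝ) ≤ qr F := by
    have : 2 ≤ Fintype.card F := Fintype.one_lt_card
    unfold qr
    exact_mod_cast this
  have hq0 : (0 : ℝ) < qr F := by linarith
  have hq1 : (1 : ℝ) ≤ qr F := by linarith
  obtain ⟨d0, hd0⟩ := exists_nat_gt (1 / ε)
  have hd1 : (1 : ℝ) ≤ ε * d0 := by
    have := (div_lt_iff₀ hε).1 hd0
    linarith
  -- the constant for the small primes
  obtain ⟨C0, hC1, hC0⟩ : ∃ C0 : ℝ, 1 ≤ C0 ∧ ∀ a : ℕ, (a + 1 : ℝ) ≤ C0 * qr F ^ (ε * a) := by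
    refine ⟨1 + 1 / (ε * Real.log 2), ?_, ?_⟩
    · have : 0 ≤ 1 / (ε * Real.log 2) := by
        have := Real.log_pos (by norm_num : (1 : ℝ) < 2)
        positivity
      linarith
    · intro a
      have hl : 0 < Real.log 2 := Real.log_pos (by norm_num)
      have h1 : (2 : ℝ) ^ (ε * a) ≤ qr F ^ (ε * a) :=
        Real.rpow_le_rpow (by norm_num) hq2 (by positivity)
      have h2 : 1 + ε * Real.log 2 * a ≤ (2 : ℝ) ^ (ε * a) := by
        rw [Real.rpow_def_of_pos (by norm_num)]
        have := Real.add_one_le_exp (Real.log 2 * (ε * a))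
        nlinarith
      have h3 : (a + 1 : ℝ) ≤ (1 + 1 / (ε * Real.log 2)) * (1 + ε * Real.log 2 * a) := by
        have h4 : 0 < ε * Real.log 2 := by positivity
        have h5 : 1 / (ε * Real.log 2) * (ε * Real.log 2 * a) = a := by
          field_simp
        have h6 : 0 ≤ 1 / (ε * Real.log 2) := by positivity
        have h7 : (0 : ℝ) ≤ ε * Real.log 2 * a := by positivity
        calc (a + 1 : ℝ) ≤ 1 + ε * Real.log 2 * a + 1 / (ε * Real.log 2)
              + 1 / (ε * Real.log 2) * (ε * Real.log 2 * a) := by rw [h5]; linarith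
          _ = _ := by ring
      have h8 : 0 ≤ 1 + 1 / (ε * Real.log 2) := by positivity
      exact h3.trans (mul_le_mul_of_nonneg_left (h2.trans h1) h8)
  set Sm : Finset F[X] := (Finset.range d0).biUnion (fun d => Ir F d) with hSm
  have hmemS : ∀ P : F[X], P ∈ Sm ↔ (P.Monic ∧ Irreducible P ∧ P.natDegree < d0) := by
    intro P
    rw [hSm, Finset.mem_biUnion]
    constructor
    · rintro ⟨d, hd, hP⟩
      rw [memIr] at hP
      exact ⟨hP.1.1, hP.2, by rw [hP.1.2]; exact Finset.mem_range.1 hd⟩
    · rintro ⟨h1, h2, h3⟩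
      exact ⟨P.natDegree, Finset.mem_range.2 h3, (memIr _ _).2 ⟨⟨h1, rfl⟩, h2⟩⟩
  have key : ∀ n : ℕ, ∀ f : F[X], f.Monic → f.natDegree = n →
      ((Dv f).card : ℝ) ≤ C0 ^ (Sm.filter (fun P => P ∣ f)).card * qr F ^ (ε * n) := by
    intro n
    induction n using Nat.strong_induction_on with
    | _ n ih =>
      intro f hf hn
      rcases Nat.eq_zero_or_pos n with h0 | h0
      · subst h0
        have hf1 : f = 1 := hf.natDegree_eq_zero.1 hn
        subst hf1
        have h1 : Dv (1 : F[X]) ⊆ {1} := by
          intro d hd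
          rw [mem_Dv one_ne_zero] at hd
          rw [Finset.mem_singleton]
          exact hd.1.eq_one_of_isUnit (isUnit_of_dvd_one hd.2)
        have h2 : ((Dv (1 : F[X])).card : ℝ) ≤ 1 := by
          exact_mod_cast (Finset.card_le_card h1)
        have h3 : (1 : ℝ) ≤ C0 ^ (Sm.filter (fun P => P ∣ (1 : F[X]))).card := one_le_pow₀ hC1
        calc ((Dv (1 : F[X])).card : ℝ) ≤ 1 * 1 := by rw [one_mul]; exact h2
          _ ≤ _ := by
            refine mul_le_mul h3 ?_ (by norm_num) (by positivity)
            simp
      · have hfu : ¬ IsUnit f := by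
          intro hu
          have := natDegree_eq_zero_of_isUnit hu
          omega
        obtain ⟨P, hPm, hPi, hPf⟩ := exists_monic_irreducible_factor f hfu
        have hfin : FiniteMultiplicity P f :=
          FiniteMultiplicity.of_not_isUnit hPi.not_isUnit hf.ne_zero
        obtain ⟨g, hg, hng⟩ := hfin.exists_eq_pow_mul_and_not_dvd
        set a := multiplicity P f with ha
        have hgm : g.Monic := by
          refine Monic.of_mul_monic_left (hPm.pow a) ?_
          rw [← hg]
          exact hf
        have ha1 : 1 ≤ a := by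
          by_contra hcon
          have : a = 0 := by omega
          rw [this, pow_zero, one_mul] at hg
          exact hng (hg ▸ hPf)
        have hPd : 0 < P.natDegree := hPi.natDegree_pos
        have hdeg : n = a * P.natDegree + g.natDegree := by
          rw [← hn, hg, (hPm.pow a).natDegree_mul hgm, hPm.natDegree_pow]
        have hgn : g.natDegree < n := by
          rw [hdeg]
          have : 0 < a * P.natDegree := Nat.mul_pos ha1 hPd
          omega
        have hIH := ih g.natDegree hgn g hgm rfl
        have h1 : ((Dv f).card : ℝ) ≤ (a + 1) * (Dv g).card := by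
          have := tauMul hPm hPi hgm hng a
          rw [← hg] at this
          exact_mod_cast this
        have hexp : qr F ^ (ε * n) = qr F ^ (ε * (a * P.natDegree : ℕ)) *
            qr F ^ (ε * g.natDegree) := by
          rw [← Real.rpow_add hq0, hdeg]
          push_cast
          ring_nf
        have hdg : ∀ R : F[X], R ∣ g → R ∣ f := fun R hR => by
          rw [hg]
          exact dvd_mul_of_dvd_right hR _
        have hC0' : (0 : ℝ) ≤ C0 := by linarith
        have hqg : (0 : ℝ) < qr F ^ (ε * (g.natDegree : ℝ)) := Real.rpow_pos_of_pos hq0 _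
        by_cases hsm : P.natDegree < d0
        · have hcard : (Sm.filter (fun R => R ∣ g)).card + 1 ≤ (Sm.filter (fun R => R ∣ f)).card := by
            rw [← Finset.card_insert_of_notMem (a := P) (s := Sm.filter (fun R => R ∣ g))
              (by rw [Finset.mem_filter]; exact fun h => hng h.2)]
            refine Finset.card_le_card ?_
            intro R hR
            rw [Finset.mem_insert] at hR
            rcases hR with rfl | hR
            · exact Finset.mem_filter.2 ⟨(hmemS _).2 ⟨hPm, hPi, hsm⟩, hPf⟩
            · exact Finset.mem_filter.2 ⟨(Finset.mem_filter.1 hR).1, hdg R (Finset.mem_filter.1 hR).2⟩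
          have h2 : (a + 1 : ℝ) ≤ C0 * qr F ^ (ε * (a * P.natDegree : ℕ)) := by
            refine (hC0 a).trans (mul_le_mul_of_nonneg_left ?_ hC0')
            refine Real.rpow_le_rpow_of_exponent_le hq1 ?_
            refine mul_le_mul_of_nonneg_left ?_ hε.le
            exact_mod_cast Nat.le_mul_of_pos_right a hPd
          calc ((Dv f).card : ℝ) ≤ (a + 1) * (Dv g).card := h1
            _ ≤ (C0 * qr F ^ (ε * (a * P.natDegree : ℕ))) *
                (C0 ^ (Sm.filter (fun R => R ∣ g)).card * qr F ^ (ε * g.natDegree)) :=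
              mul_le_mul h2 hIH (Nat.cast_nonneg _)
                (mul_nonneg hC0' (Real.rpow_nonneg hq0.le _))
            _ = C0 ^ ((Sm.filter (fun R => R ∣ g)).card + 1) * qr F ^ (ε * n) := by
              rw [hexp, pow_succ]; ring
            _ ≤ _ := by
              refine mul_le_mul_of_nonneg_right (pow_le_pow_right₀ hC1 hcard) ?_
              exact Real.rpow_nonneg hq0.le _
        · have hcard : (Sm.filter (fun R => R ∣ g)).card ≤ (Sm.filter (fun R => R ∣ f)).card := by
            refine Finset.card_le_card ?_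
            intro R hR
            exact Finset.mem_filter.2 ⟨(Finset.mem_filter.1 hR).1, hdg R (Finset.mem_filter.1 hR).2⟩
          have h2 : (a + 1 : ℝ) ≤ qr F ^ (ε * (a * P.natDegree : ℕ)) := by
            have h3 : (a + 1 : ℝ) ≤ 2 ^ a := by
              have : a + 1 ≤ 2 ^ a := Nat.lt_two_pow_self
              exact_mod_cast this
            have h4 : (2 : ℝ) ^ a ≤ qr F ^ (a : ℝ) := by
              rw [Real.rpow_natCast]
              exact pow_le_pow_left₀ (by norm_num) hq2 a
            refine h3.trans (h4.trans (Real.rpow_le_rpow_of_exponent_le hq1 ?_))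
            have h5 : (d0 : ℝ) ≤ P.natDegree := by exact_mod_cast not_lt.1 hsm
            have h6 : (1 : ℝ) ≤ ε * P.natDegree :=
              hd1.trans (mul_le_mul_of_nonneg_left h5 hε.le)
            push_cast
            have h7 : (0 : ℝ) ≤ a := Nat.cast_nonneg a
            nlinarith
          calc ((Dv f).card : ℝ) ≤ (a + 1) * (Dv g).card := h1
            _ ≤ (qr F ^ (ε * (a * P.natDegree : ℕ))) *
                (C0 ^ (Sm.filter (fun R => R ∣ g)).card * qr F ^ (ε * g.natDegree)) :=
              mul_le_mul h2 hIH (Nat.cast_nonneg _) (Real.rpow_nonneg hq0.le _)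
            _ = C0 ^ (Sm.filter (fun R => R ∣ g)).card * qr F ^ (ε * n) := by
              rw [hexp]; ring
            _ ≤ _ := by
              refine mul_le_mul_of_nonneg_right (pow_le_pow_right₀ hC1 hcard) ?_
              exact Real.rpow_nonneg hq0.le _
  refine ⟨C0 ^ Sm.card, one_le_pow₀ hC1, ?_⟩
  intro f hf
  refine (key f.natDegree f hf rfl).trans ?_
  refine mul_le_mul_of_nonneg_right (pow_le_pow_right₀ hC1 (Finset.card_filter_le _ _)) ?_
  exact Real.rpow_nonneg hq0.le _

end Pool.Agent.Helper48.FC
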